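import Pool.Agent.Lib_helper66.GenTate.Main

/-!
# Realizations of the cycles of a smooth projective variety: one prime suffices
-/

set_option autoImplicit false

universe u v w v' w'

namespace GenTate

open Polynomial

/-- `IsRealization K n χ φ φ' pair cl cl'`: the `K`-spaces `V` (with Frobenius `φ`), `V'` (with
Frobenius `φ'`) in perfect equivariant duality `pair`, with invariant classes `cl`, `cl'` of the
elements of `A` and `B`, realize the intersection numbers `n` and the characteristic polynomial
`χ`. -/
structure IsRealization (K : Type v) [Field K] [CharZero K] {A B : Type u} (n : A → B → ℚ) (χ : ℚ[X])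
    {V V' : Type w} [AddCommGroup V] [Module K V] [AddCommGroup V'] [Module K V']
    [Module.Finite K V] (φ : Module.End K V) (φ' : Module.End K V') (pair : V →ₗ[K] V' →ₗ[K] K)
    (cl : A → V) (cl' : B → V') : Prop where
  /-- the duality is equivariant -/
  inv : ∀ a b, pair (φ a) (φ' b) = pair a b
  /-- no left kernel -/
  left : ∀ a, (∀ b, pair a b = 0) → a = 0
  /-- no right kernel -/
  right : ∀ b, (∀ a, pair a b = 0) → b = 0
  /-- invariant classes -/
  cl_inv : ∀ x, φ (cl x) = cl x
  /-- invariant classes -/
  cl'_inv : ∀ y, φ' (cl' y) = cl' y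
  /-- intersection numbers -/
  num : ∀ x y, pair (cl x) (cl' y) = (n x y : K)
  /-- characteristic polynomial of Frobenius -/
  char : φ.charpoly = χ.map (algebraMap ℚ K)

section

variable {K : Type v} [Field K] {V : Type w} [AddCommGroup V] [Module K V]

lemma ker_of_pow (G : Module.End K V) (h : ∀ a, G (G a) = 0 → G a = 0) (k : ℕ) (a : V)
    (ha : (G ^ k) a = 0) : G a = 0 := by
  induction k generalizing a with
  | zero =>
    have h1 : a = 0 := by simpa using ha
    rw [h1, map_zero]
  | succ k ih =>
    rw [pow_succ] at ha
    exact h a (ih (G a) ha)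

lemma mem_maxGen_iff (φ : Module.End K V)
    (h : ∀ a, φ (φ a - a) - (φ a - a) = 0 → φ a - a = 0) (a : V) :
    a ∈ φ.maxGenEigenspace 1 ↔ φ a = a := by
  rw [Module.End.mem_maxGenEigenspace]
  constructor
  · rintro ⟨k, hk⟩
    have h1 : (φ - (1 : K) • (1 : Module.End K V)) a = 0 := by
      apply ker_of_pow _ _ k a hk
      intro b hb
      simp only [one_smul, LinearMap.sub_apply, Module.End.one_apply] at hb ⊢
      exact h b hb
    simp only [one_smul, LinearMap.sub_apply, Module.End.one_apply] at h1
    exact sub_eq_zero.mp h1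
  · intro h1
    refine ⟨1, ?_⟩
    simp [h1]

/-- semisimplicity at `1` on one side: an invariant orthogonal to all invariants vanishes -/
lemma eq_zero_of_orthogonal {V' : Type w} [AddCommGroup V'] [Module K V'] [Module.Finite K V']
    (φ : Module.End K V) (φ' : Module.End K V') (pair : V →ₗ[K] V' →ₗ[K] K)
    (inv : ∀ a b, pair (φ a) (φ' b) = pair a b) (left : ∀ a, (∀ b, pair a b = 0) → a = 0)
    (h : ∀ a, φ' (φ' a - a) - (φ' a - a) = 0 → φ' a - a = 0) (a : V) (ha : φ a = a)
    (h0 : ∀ b, φ' b = b → pair a b = 0) : a = 0 := by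
  apply left
  intro b
  obtain ⟨q, hq⟩ := exists_poly (φ' - 1) (by
    intro c hc
    exact h c hc)
  -- b = (b - q(G) G b) + G (q(G) b)
  set G : Module.End K V' := φ' - 1 with hG
  have hcomm : Commute G (aeval G q) := by
    have h1 : Commute (aeval G (Polynomial.X : K[X])) (aeval G q) := by
      unfold Commute SemiconjBy
      rw [← map_mul, ← map_mul, mul_comm]
    rwa [aeval_X] at h1
  have hker : G (b - aeval G q (G b)) = 0 := by
    have h1 : G (aeval G q (G b)) = (G * G * aeval G q) b := by
      have h2 : G * (aeval G q * G) = G * G * aeval G q := by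
        rw [← hcomm.eq, mul_assoc]
      rw [← h2]
      rfl
    rw [map_sub, h1, ← hq, sub_self]
  have hrange : ∀ c, pair a (G c) = 0 := by
    intro c
    have h1 : G c = φ' c - c := rfl
    rw [h1, map_sub, sub_eq_zero]
    nth_rewrite 1 [← ha]
    exact inv a c
  have h1 : aeval G q (G b) = G (aeval G q b) := by
    have h2 := congrArg (fun f : Module.End K V' => f b) hcomm.eq
    exact h2.symm
  have h2 : b = (b - aeval G q (G b)) + G (aeval G q b) := by
    rw [← h1]
    abel
  rw [h2, map_add, hrange, add_zero]
  apply h0
  exact sub_eq_zero.mp hker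

end

section

variable {K : Type v} [Field K] [CharZero K] {A B : Type u} {n : A → B → ℚ} {χ : ℚ[X]}
    {V V' : Type w} [AddCommGroup V] [Module K V] [AddCommGroup V'] [Module K V']
    [Module.Finite K V] [Module.Finite K V'] {φ : Module.End K V} {φ' : Module.End K V'}
    {pair : V →ₗ[K] V' →ₗ[K] K} {cl : A → V} {cl' : B → V'}

/-- If the classes span the invariants on both sides and `1` is semisimple on both sides then
there are `m = rootMultiplicity 1 χ` elements on each side with invertible Gram matrix. -/
lemma exists_gram (hR : IsRealization K n χ φ φ' pair cl cl')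
    (hs : ∀ a, φ a = a → a ∈ Submodule.span K (Set.range cl))
    (hs' : ∀ a, φ' a = a → a ∈ Submodule.span K (Set.range cl'))
    (h : ∀ a, φ (φ a - a) - (φ a - a) = 0 → φ a - a = 0)
    (h' : ∀ a, φ' (φ' a - a) - (φ' a - a) = 0 → φ' a - a = 0) :
    ∃ (x : Fin (χ.rootMultiplicity 1) → A) (y : Fin (χ.rootMultiplicity 1) → B),
      (Matrix.of fun a b => n (x a) (y b)).det ≠ 0 := by
  classical
  -- bases from the spanning sets
  have hmem : ∀ a, a ∈ Submodule.span K (Set.range cl) ↔ φ a = a := by
    intro a
    refine ⟨fun ha => ?_, hs a⟩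
    induction ha using Submodule.span_induction with
    | mem a ha =>
      obtain ⟨x, rfl⟩ := ha
      exact hR.cl_inv x
    | zero => exact map_zero _
    | add a b _ _ ha hb => rw [map_add, ha, hb]
    | smul r a _ ha => rw [map_smul, ha]
  have hmem' : ∀ a, a ∈ Submodule.span K (Set.range cl') ↔ φ' a = a := by
    intro a
    refine ⟨fun ha => ?_, hs' a⟩
    induction ha using Submodule.span_induction with
    | mem a ha =>
      obtain ⟨x, rfl⟩ := ha
      exact hR.cl'_inv x
    | zero => exact map_zero _
    | add a b _ _ ha hb => rw [map_add, ha, hb]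
    | smul r a _ ha => rw [map_smul, ha]
  have hmax : φ.maxGenEigenspace 1 = Submodule.span K (Set.range cl) := by
    ext a
    rw [mem_maxGen_iff φ h, hmem]
  have hrank : Module.finrank K (Submodule.span K (Set.range cl)) = χ.rootMultiplicity 1 := by
    rw [← hmax, LinearMap.finrank_maxGenEigenspace_eq, hR.char]
    have h1 := Polynomial.eq_rootMultiplicity_map (p := χ) (f := algebraMap ℚ K)
      (algebraMap ℚ K).injective 1
    rw [map_one] at h1
    exact h1.symm
  -- orthogonality
  have hort : ∀ a ∈ Submodule.span K (Set.range cl),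
      (∀ b ∈ Submodule.span K (Set.range cl'), pair a b = 0) → a = 0 := by
    intro a ha h0
    exact eq_zero_of_orthogonal φ φ' pair hR.inv hR.left h' a ((hmem a).mp ha)
      (fun b hb => h0 b ((hmem' b).mpr hb))
  have hort' : ∀ b ∈ Submodule.span K (Set.range cl'),
      (∀ a ∈ Submodule.span K (Set.range cl), pair a b = 0) → b = 0 := by
    intro b hb h0
    exact eq_zero_of_orthogonal φ' φ pair.flip (fun b a => hR.inv a b)
      (fun b hb => hR.right b hb) h b ((hmem' b).mp hb) (fun a ha => h0 a ((hmem a).mpr ha))
  -- equal ranks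
  set S := Submodule.span K (Set.range cl) with hSdef
  set S' := Submodule.span K (Set.range cl') with hS'def
  have hrank' : Module.finrank K S' = χ.rootMultiplicity 1 := by
    rw [← hrank]
    apply le_antisymm
    · let g : S' →ₗ[K] Module.Dual K S := (Module.Dual.transpose (R := K) S.subtype).comp
        (pair.flip.comp S'.subtype)
      have hg : Function.Injective g := by
        rw [← LinearMap.ker_eq_bot, LinearMap.ker_eq_bot']
        intro b hb
        apply Subtype.ext
        apply hort' b b.2
        intro a ha
        exact congrArg (fun f : Module.Dual K S => f ⟨a, ha⟩) hb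
      have h1 := LinearMap.finrank_le_finrank_of_injective hg
      rwa [Subspace.dual_finrank_eq] at h1
    · let g : S →ₗ[K] Module.Dual K S' := (Module.Dual.transpose (R := K) S'.subtype).comp
        (pair.comp S.subtype)
      have hg : Function.Injective g := by
        rw [← LinearMap.ker_eq_bot, LinearMap.ker_eq_bot']
        intro b hb
        apply Subtype.ext
        apply hort b b.2
        intro a ha
        exact congrArg (fun f : Module.Dual K S' => f ⟨a, ha⟩) hb
      have h1 := LinearMap.finrank_le_finrank_of_injective hg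
      rwa [Subspace.dual_finrank_eq] at h1
  -- extract bases
  have key : ∀ {W : Type w} [AddCommGroup W] [Module K W] [Module.Finite K W] {C : Type u}
      (c : C → W) (m : ℕ), Module.finrank K (Submodule.span K (Set.range c)) = m →
      ∃ z : Fin m → C, LinearIndependent K (c ∘ z) ∧
        Submodule.span K (Set.range (c ∘ z)) = Submodule.span K (Set.range c) := by
    intro W _ _ _ C c m hm
    obtain ⟨b, hb1, hb2, hb3⟩ := exists_linearIndependent K (Set.range c)
    have hfin : b.Finite := hb3.setFinite
    have : Fintype b := hfin.fintype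
    have hcard : Fintype.card b = m := by
      rw [← hm, ← hb2]
      have h1 := finrank_span_eq_card (R := K) (b := (Subtype.val : b → W)) hb3
      rw [Subtype.range_coe_subtype, Set.ofPred_mem_eq] at h1
      exact h1.symm
    let e : Fin m ≃ b := (Fintype.equivFinOfCardEq hcard).symm
    choose z hz using fun k : Fin m => hb1 (e k).2
    have h2 : c ∘ z = (Subtype.val : b → W) ∘ e := by
      funext k
      exact hz k
    refine ⟨z, ?_, ?_⟩
    · rw [h2]
      exact hb3.comp _ e.injective
    · rw [h2, Set.range_comp, e.surjective.range_eq, Set.image_univ, Subtype.range_coe_subtype,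
        Set.ofPred_mem_eq, hb2]
  obtain ⟨x, hx1, hx2⟩ := key cl _ hrank
  obtain ⟨y, hy1, hy2⟩ := key cl' _ hrank'
  refine ⟨x, y, ?_⟩
  intro hdet
  have hdetK : (Matrix.of fun a b => ((n (x a) (y b) : ℚ) : K)).det = 0 := by
    have h1 := congrArg (algebraMap ℚ K) hdet
    rw [map_zero, RingHom.map_det] at h1
    rw [← h1]
    congr 1
  obtain ⟨v, hv0, hv⟩ := Matrix.exists_vecMul_eq_zero_iff.mpr hdetK
  apply hv0
  have h1 : ∑ a, v a • cl (x a) = 0 := by
    apply hort
    · exact Submodule.sum_mem _ fun a _ => Submodule.smul_mem _ _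
        (Submodule.subset_span ⟨x a, rfl⟩)
    · intro b hb
      rw [hS'def, ← hy2] at hb
      induction hb using Submodule.span_induction with
      | mem b hb =>
        obtain ⟨k, rfl⟩ := hb
        rw [map_sum, LinearMap.sum_apply]
        have h2 := congrFun hv k
        rw [Matrix.vecMul, dotProduct, Pi.zero_apply] at h2
        rw [← h2]
        apply Finset.sum_congr rfl
        intro a _
        rw [map_smul, LinearMap.smul_apply, Function.comp_apply, hR.num]
        rfl
      | zero => exact map_zero _
      | add a b _ _ ha hb => rw [map_add, ha, hb, add_zero]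
      | smul r a _ ha => rw [map_smul, ha, smul_zero]
  funext a
  exact linearIndependent_iff'.mp hx1 Finset.univ v h1 a (Finset.mem_univ a)

omit [Module.Finite K V'] in
/-- If a Gram matrix of size `m = rootMultiplicity 1 χ` is invertible then the classes span the
invariants, `1` is semisimple, and homological equals numerical equivalence. -/
theorem of_gram (hR : IsRealization K n χ φ φ' pair cl cl')
    (x : Fin (χ.rootMultiplicity 1) → A) (y : Fin (χ.rootMultiplicity 1) → B)
    (hdet : (Matrix.of fun a b => n (x a) (y b)).det ≠ 0) :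
    (∀ a, φ a = a → a ∈ Submodule.span K (Set.range cl)) ∧
    (∀ a, φ (φ a - a) - (φ a - a) = 0 → φ a - a = 0) ∧
    (∀ a ∈ Submodule.span K (Set.range cl), (∀ y, pair a (cl' y) = 0) → a = 0) ∧
    Module.finrank K (Submodule.span K (Set.range cl)) = χ.rootMultiplicity 1 := by
  classical
  have hdetK : (Matrix.of fun a b => ((n (x a) (y b) : ℚ) : K)).det ≠ 0 := by
    intro h0
    apply hdet
    apply (algebraMap ℚ K).injective
    rw [map_zero, RingHom.map_det, ← h0]
    congr 1
  have hrow : ∀ v : Fin (χ.rootMultiplicity 1) → K,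
      (∀ b, pair (∑ a, v a • cl (x a)) (cl' (y b)) = 0) → v = 0 := by
    intro v hv
    by_contra hne
    apply hdetK
    apply Matrix.exists_vecMul_eq_zero_iff.mp
    refine ⟨v, hne, ?_⟩
    funext b
    rw [Matrix.vecMul, dotProduct, Pi.zero_apply, ← hv b, map_sum, LinearMap.sum_apply]
    apply Finset.sum_congr rfl
    intro a _
    rw [map_smul, LinearMap.smul_apply, hR.num]
    rfl
  have hli : LinearIndependent K (cl ∘ x) := by
    rw [Fintype.linearIndependent_iff]
    intro g hg
    have h1 := hrow g (by
      intro b
      have h2 : ∑ a, g a • cl (x a) = 0 := hg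
      rw [h2, map_zero]
      rfl)
    intro a
    rw [h1]
    rfl
  set S := Submodule.span K (Set.range cl) with hS
  set S₀ := Submodule.span K (Set.range (cl ∘ x)) with hS₀
  set M := φ.maxGenEigenspace 1 with hM
  have h1 : S₀ ≤ S := Submodule.span_mono (by
    rintro _ ⟨k, rfl⟩
    exact ⟨x k, rfl⟩)
  have h2 : ∀ a, φ a = a → a ∈ M := by
    intro a ha
    rw [hM, Module.End.mem_maxGenEigenspace]
    exact ⟨1, by simp [ha]⟩
  have h3 : S ≤ M := by
    rw [hS, Submodule.span_le]
    rintro _ ⟨k, rfl⟩
    exact h2 _ (hR.cl_inv k)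
  have hMr : Module.finrank K M = χ.rootMultiplicity 1 := by
    rw [hM, LinearMap.finrank_maxGenEigenspace_eq, hR.char]
    have h1 := Polynomial.eq_rootMultiplicity_map (p := χ) (f := algebraMap ℚ K)
      (algebraMap ℚ K).injective 1
    rw [map_one] at h1
    exact h1.symm
  have hS₀r : Module.finrank K S₀ = χ.rootMultiplicity 1 := by
    rw [hS₀, finrank_span_eq_card hli, Fintype.card_fin]
  have h4 : S₀ = M := Submodule.eq_of_le_of_finrank_le (h1.trans h3) (by rw [hMr, hS₀r])
  have h5 : S = M := le_antisymm h3 (h4 ▸ h1)
  have h6 : ∀ a ∈ M, φ a = a := by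
    intro a ha
    rw [← h5] at ha
    induction ha using Submodule.span_induction with
    | mem a ha =>
      obtain ⟨x, rfl⟩ := ha
      exact hR.cl_inv x
    | zero => exact map_zero _
    | add a b _ _ ha hb => rw [map_add, ha, hb]
    | smul r a _ ha => rw [map_smul, ha]
  refine ⟨?_, ?_, ?_, ?_⟩
  · intro a ha
    rw [h5]
    exact h2 a ha
  · intro a ha
    have h7 : a ∈ M := by
      rw [hM, Module.End.mem_maxGenEigenspace]
      refine ⟨2, ?_⟩
      rw [pow_two, Module.End.mul_apply]
      simp only [one_smul, LinearMap.sub_apply, Module.End.one_apply]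
      exact ha
    rw [h6 a h7, sub_self]
  · intro a ha h0
    rw [h5, ← h4] at ha
    obtain ⟨v, hv⟩ := (Submodule.mem_span_range_iff_exists_fun K).mp ha
    have h7 : v = 0 := hrow v (by
      intro b
      have h8 : ∑ a, v a • cl (x a) = a := hv
      rw [h8]
      exact h0 _)
    rw [← hv, h7]
    simp
  · rw [h5, hMr]

end

end GenTate
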