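import Pool.Agent.Lib_helper66.GenTate.Main

/-!
# Semisimplicity of `Ad φ` at `1` implies semisimplicity of `φ`
-/

set_option autoImplicit false

universe u v w

namespace GenTate

open Polynomial

section

variable {K : Type v} [Field K] {V : Type w} [AddCommGroup V] [Module K V]
  [FiniteDimensional K V]

/-- every functional on the endomorphisms is the trace of the product with a fixed one -/
lemma exists_trace (f : Module.Dual K (Module.End K V)) :
    ∃ z : Module.End K V, ∀ a, f a = LinearMap.trace K V (a * z) := by
  let B : Module.End K V →ₗ[K] Module.Dual K (Module.End K V) :=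
    LinearMap.mk₂ K (fun z a => LinearMap.trace K V (a * z))
      (by intro z z' a; simp [mul_add]) (by intro r z a; simp)
      (by intro z a a'; simp [add_mul]) (by intro r z a; simp)
  have hinj : Function.Injective B := by
    rw [← LinearMap.ker_eq_bot, LinearMap.ker_eq_bot']
    intro z hz
    apply LinearMap.ext
    intro x
    rw [LinearMap.zero_apply]
    rw [← Module.forall_dual_apply_eq_zero_iff K]
    intro g
    have h1 : B z (g.smulRight x) = 0 := by rw [hz]; rfl
    have h2 : B z (g.smulRight x) = LinearMap.trace K V ((g.comp z).smulRight x) := rfl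
    rw [h2, LinearMap.trace_smulRight] at h1
    exact h1
  have hsurj : Function.Surjective B := by
    have h1 : Module.finrank K (Module.End K V) =
        Module.finrank K (Module.Dual K (Module.End K V)) := (Subspace.dual_finrank_eq).symm
    exact (LinearMap.injective_iff_surjective_of_finrank_eq_finrank h1).mp hinj
  obtain ⟨z, hz⟩ := hsurj f
  exact ⟨z, fun a => by rw [← hz]; rfl⟩

/-- an endomorphism orthogonal to the commutant of `φ` is a commutator with `φ` -/
lemma exists_commutator (φ y : Module.End K V)
    (h : ∀ z, φ * z = z * φ → LinearMap.trace K V (y * z) = 0) :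
    ∃ a, φ * a - a * φ = y := by
  let L : Module.End K V →ₗ[K] Module.End K V :=
    LinearMap.mulLeft K φ - LinearMap.mulRight K φ
  have hL : ∀ a, L a = φ * a - a * φ := fun a => rfl
  by_contra hne
  have hy : y ∉ LinearMap.range L := by
    rintro ⟨a, ha⟩
    exact hne ⟨a, ha⟩
  obtain ⟨f, hf, hf0⟩ := Submodule.exists_dual_map_eq_bot_of_notMem hy inferInstance
  obtain ⟨z, hz⟩ := exists_trace f
  apply hf
  rw [hz y]
  apply h
  have h1 : ∀ a, LinearMap.trace K V (a * (z * φ - φ * z)) = 0 := by
    intro a
    have h2 : f (L a) = 0 := by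
      have h3 : f (L a) ∈ (LinearMap.range L).map f := ⟨L a, ⟨a, rfl⟩, rfl⟩
      rw [hf0] at h3
      exact h3
    rw [hz, hL, sub_mul, map_sub] at h2
    rw [mul_sub, map_sub, ← h2]
    congr 1
    rw [← mul_assoc, LinearMap.trace_mul_comm, ← mul_assoc]
  have h4 : z * φ - φ * z = 0 := by
    apply LinearMap.ext
    intro x
    rw [LinearMap.zero_apply, ← Module.forall_dual_apply_eq_zero_iff K]
    intro g
    have h5 := h1 (g.smulRight x)
    have h6 : (g.smulRight x) * (z * φ - φ * z) = (g.comp (z * φ - φ * z)).smulRight x := rfl
    rw [h6, LinearMap.trace_smulRight] at h5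
    exact h5
  exact (sub_eq_zero.mp h4).symm

/-- if the eigenvalue `1` of `a ↦ φ a φ⁻¹` is semisimple then `φ` is semisimple -/
theorem semisimple_of_ad (φ : V ≃ₗ[K] V)
    (h : ∀ a : Module.End K V,
      (φ : Module.End K V) * ((φ : Module.End K V) * a * (φ.symm : Module.End K V) - a) *
        (φ.symm : Module.End K V) - ((φ : Module.End K V) * a * (φ.symm : Module.End K V) - a) = 0 →
      (φ : Module.End K V) * a * (φ.symm : Module.End K V) - a = 0) :
    Module.End.IsSemisimple (φ : Module.End K V) := by
  set f : Module.End K V := (φ : Module.End K V) with hf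
  set g : Module.End K V := (φ.symm : Module.End K V) with hg
  have hfg : f * g = 1 := by
    apply LinearMap.ext
    intro x
    exact φ.apply_symm_apply x
  have hgf : g * f = 1 := by
    apply LinearMap.ext
    intro x
    exact φ.symm_apply_apply x
  apply Module.End.isSemisimple_of_squarefree_aeval_eq_zero (p := minpoly K f) _
    (minpoly.aeval K f)
  intro p hp
  obtain ⟨r, hr⟩ := hp
  have hm0 : minpoly K f ≠ 0 := minpoly.ne_zero (IsIntegral.of_finite K f)
  set n : Module.End K V := aeval f (p * r) with hn
  have hcomm : ∀ z, f * z = z * f → n * z = z * n := by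
    intro z hz
    have h1 : Commute z f := hz.symm
    have h2 : ∀ q : K[X], Commute z (aeval f q) := by
      intro q
      induction q using Polynomial.induction_on' with
      | add a b ha hb => rw [map_add]; exact ha.add_right hb
      | monomial k c =>
        rw [aeval_monomial]
        exact (Algebra.commute_algebraMap_right c z).mul_right (h1.pow_right k)
    exact (h2 _).eq.symm
  have hnn : n * n = 0 := by
    rw [hn, ← map_mul]
    have h1 : p * r * (p * r) = minpoly K f * r := by
      rw [hr]
      ring
    rw [h1, map_mul, minpoly.aeval, zero_mul]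
  have hnf : n * f = f * n := hcomm f rfl
  have hn0 : n = 0 := by
    obtain ⟨a, ha⟩ := exists_commutator f (n * f) (by
      intro z hz
      have h1 : n * (f * z) = f * z * n := hcomm (f * z) (by
        rw [mul_assoc, ← hz, ← mul_assoc])
      have h2 : IsNilpotent (n * f * z) := by
        refine ⟨2, ?_⟩
        rw [pow_two]
        calc n * f * z * (n * f * z) = n * (f * z) * (n * (f * z)) := by
              simp only [mul_assoc]
          _ = n * (f * z * n) * (f * z) := by simp only [mul_assoc]
          _ = n * (n * (f * z)) * (f * z) := by rw [h1]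
          _ = (n * n) * ((f * z) * (f * z)) := by simp only [mul_assoc]
          _ = 0 := by rw [hnn, zero_mul]
      exact (LinearMap.isNilpotent_trace_of_isNilpotent h2).eq_zero)
    have h3 : f * a * g - a = n := by
      calc f * a * g - a = (f * a - a * f) * g := by
            rw [sub_mul, mul_assoc a f g, hfg, mul_one]
        _ = n * (f * g) := by rw [ha, mul_assoc]
        _ = n := by rw [hfg, mul_one]
    have h4 := h a (by
      rw [h3, ← hnf, mul_assoc, hfg, mul_one, sub_self])
    rw [← h3, h4]
  have hdvd : minpoly K f ∣ p * r := minpoly.dvd K f hn0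
  have hpr : p * r ≠ 0 := by
    intro h0
    apply hm0
    rw [hr, mul_assoc, h0, mul_zero]
  rw [hr] at hdvd
  have h5 : p * (p * r) ∣ 1 * (p * r) := by
    rw [one_mul, ← mul_assoc]
    exact hdvd
  exact isUnit_of_dvd_one ((mul_dvd_mul_iff_right hpr).mp h5)

end

section

variable {X : Type u} [TopologicalSpace X] {K : Type v} [Field K] {T : Data.{u, v, w} X K}
  {i : ℕ} {P : Set X → Prop}

/-- Semisimplicity of the whole Frobenius on a space whose endomorphisms embed in `H Y`. -/
theorem Data.IsTheory.frobenius_semisimple [TopologicalSpace.NoetherianSpace X] [CharZero K]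
    (hT : T.IsTheory i P)
    (hS : ∀ U : Set X, IsLocallyClosed U → P U → (i : WithBot ℕ∞) < topologicalKrullDim U →
      topologicalKrullDim U ≤ ((2 * i : ℕ) : WithBot ℕ∞) → T.Surj i U)
    (Y : Set X) (hY : IsLocallyClosed Y)
    {V : Type w} [AddCommGroup V] [Module K V] [FiniteDimensional K V] (φ : V ≃ₗ[K] V)
    (ι : Module.End K V →ₗ[K] T.H Y) (hι : Function.Injective ι)
    (hφ : ∀ a : Module.End K V, T.F Y (ι a) =
      ι ((φ : Module.End K V) * a * (φ.symm : Module.End K V))) :
    Module.End.IsSemisimple (φ : Module.End K V) := by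
  apply semisimple_of_ad
  intro a ha
  apply hι
  rw [map_zero, map_sub, ← hφ]
  apply (hT.main hS Y hY).2
  have h1 : ι ((φ : Module.End K V) * ((φ : Module.End K V) * a * (φ.symm : Module.End K V) - a) *
        (φ.symm : Module.End K V) - ((φ : Module.End K V) * a * (φ.symm : Module.End K V) - a)) =
        T.F Y (T.F Y (ι a) - ι a) - (T.F Y (ι a) - ι a) := by
    rw [map_sub ι, ← hφ, map_sub ι, ← hφ]
  rw [← h1, ha, map_zero]

end

end GenTate
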