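import Mathlib

/-!
# Homology theories with cycle classes on the locally closed subsets of a space (MP_3af9db_ag)

Model: `X` is the underlying space of a variety over a finite field, `i` a natural number,
`K = ℚ_ℓ`, `H Y` is the group `H_{2i}(Ȳ, ℚ_ℓ(i))` of the locally closed subvariety `Y` of `X`
(reduced structure), `F` is the Frobenius, `P` is the class of the irreducible smooth affine
locally closed subvarieties of `X`.
-/

set_option autoImplicit false

universe u v w

namespace GenTate

/-- the points of `Y` whose closure has dimension `i` (that is, the prime cycles of dimension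
`i` of `Y`) -/
def pts {X : Type u} [TopologicalSpace X] (i : ℕ) (Y : Set X) : Set X :=
  {x | x ∈ Y ∧ topologicalKrullDim (closure ({x} : Set X) : Set X) = (i : WithBot ℕ∞)}

/-- The data of a homology theory with cycle classes of dimension `i` on the locally closed
subsets of `X`: groups, Frobenius, push forward from the closed subset `Y \ V`, restriction to the
open subset `Y ∩ V` (where `V` is open in `X`), classes of prime cycles of dimension `i`. -/
structure Data (X : Type u) [TopologicalSpace X] (K : Type v) [Field K] where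
  /-- the homology group of a locally closed subset -/
  H : Set X → Type w
  [grp : ∀ Y, AddCommGroup (H Y)]
  [mod : ∀ Y, Module K (H Y)]
  /-- the Frobenius -/
  F : ∀ Y, H Y →ₗ[K] H Y
  /-- push forward from a closed subset -/
  push : ∀ Y V : Set X, H (Y \ V) →ₗ[K] H Y
  /-- restriction to an open subset -/
  res : ∀ Y V : Set X, H Y →ₗ[K] H (Y ∩ V)
  /-- the class of the closure of the point `x` in `Y` -/
  cl : ∀ Y : Set X, X → H Y

attribute [instance] Data.grp Data.mod

variable {X : Type u} [TopologicalSpace X] {K : Type v} [Field K]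

/-- The cycle class map of `Y` is onto the Frobenius invariants. -/
def Data.Surj (T : Data.{u, v, w} X K) (i : ℕ) (Y : Set X) : Prop :=
  ∀ a : T.H Y, T.F Y a = a → a ∈ Submodule.span K (T.cl Y '' pts i Y)

/-- The eigenvalue `1` of Frobenius on the homology of `Y` is semisimple: `(F - 1)² a = 0` implies
`(F - 1) a = 0`. -/
def Data.Semisimple (T : Data.{u, v, w} X K) (Y : Set X) : Prop :=
  ∀ a : T.H Y, T.F Y (T.F Y a - a) - (T.F Y a - a) = 0 → T.F Y a - a = 0

/-- The groups are finite-dimensional. -/
def Data.FiniteDim (T : Data.{u, v, w} X K) : Prop :=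
  ∀ Y, IsLocallyClosed Y → FiniteDimensional K (T.H Y)

/-- Push forward commutes with Frobenius. -/
def Data.PushF (T : Data.{u, v, w} X K) : Prop :=
  ∀ Y V, IsLocallyClosed Y → IsOpen V → ∀ a, T.F Y (T.push Y V a) = T.push Y V (T.F (Y \ V) a)

/-- Restriction commutes with Frobenius. -/
def Data.ResF (T : Data.{u, v, w} X K) : Prop :=
  ∀ Y V, IsLocallyClosed Y → IsOpen V → ∀ a, T.F (Y ∩ V) (T.res Y V a) = T.res Y V (T.F Y a)

/-- The localization sequence `H (Y \ V) → H Y → H (Y ∩ V)` is exact. -/
def Data.Exact (T : Data.{u, v, w} X K) : Prop :=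
  ∀ Y V, IsLocallyClosed Y → IsOpen V → ∀ a, T.res Y V a = 0 ↔ ∃ b, T.push Y V b = a

/-- Cycle classes are Frobenius invariant. -/
def Data.ClF (T : Data.{u, v, w} X K) (i : ℕ) : Prop :=
  ∀ Y, IsLocallyClosed Y → ∀ x ∈ pts i Y, T.F Y (T.cl Y x) = T.cl Y x

/-- Cycle classes are compatible with restriction. -/
def Data.ClRes (T : Data.{u, v, w} X K) (i : ℕ) : Prop :=
  ∀ Y V, IsLocallyClosed Y → IsOpen V → ∀ x ∈ pts i (Y ∩ V),
    T.res Y V (T.cl Y x) = T.cl (Y ∩ V) x

/-- Cycle classes are compatible with push forward. -/
def Data.ClPush (T : Data.{u, v, w} X K) (i : ℕ) : Prop :=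
  ∀ Y V, IsLocallyClosed Y → IsOpen V → ∀ x ∈ pts i (Y \ V),
    T.push Y V (T.cl (Y \ V) x) = T.cl Y x

/-- In dimension at most `i` every class is fixed by a power of Frobenius and the invariants are
spanned by the cycle classes. -/
def Data.Low (T : Data.{u, v, w} X K) (i : ℕ) : Prop :=
  ∀ Y, IsLocallyClosed Y → topologicalKrullDim Y ≤ (i : WithBot ℕ∞) →
    (∀ a : T.H Y, ∃ m : ℕ, 0 < m ∧ (T.F Y ^ m) a = a) ∧ T.Surj i Y

/-- Every nonempty locally closed subset has a nonempty open subset in the class `P`. -/
def Base (P : Set X → Prop) : Prop :=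
  ∀ Y : Set X, IsLocallyClosed Y → Y.Nonempty → ∃ V, IsOpen V ∧ (Y ∩ V).Nonempty ∧ P (Y ∩ V)

/-- Members of `P` of dimension greater than `2i` have no nonzero invariant classes. -/
def Data.Affine (T : Data.{u, v, w} X K) (i : ℕ) (P : Set X → Prop) : Prop :=
  ∀ Y : Set X, IsLocallyClosed Y → P Y →
    ((2 * i : ℕ) : WithBot ℕ∞) < topologicalKrullDim Y → ∀ a : T.H Y, T.F Y a = a → a = 0

/-- The properties of the homology theory. -/
structure Data.IsTheory (T : Data.{u, v, w} X K) (i : ℕ) (P : Set X → Prop) : Prop where
  /-- finite dimension -/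
  finite : T.FiniteDim
  /-- push forward commutes with Frobenius -/
  push_F : T.PushF
  /-- restriction commutes with Frobenius -/
  res_F : T.ResF
  /-- the localization sequence is exact at `H Y` -/
  exact : T.Exact
  /-- cycle classes are Frobenius invariant -/
  cl_F : T.ClF i
  /-- cycle classes and restriction -/
  cl_res : T.ClRes i
  /-- cycle classes and push forward -/
  cl_push : T.ClPush i
  /-- dimension at most `i` -/
  low : T.Low i
  /-- every nonempty locally closed subset has a nonempty open subset in the class `P` -/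
  base : Base P
  /-- vanishing for members of `P` of dimension greater than `2i` -/
  artin : T.Affine i P

end GenTate
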