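import Pool.Agent.Lib_helper66.GenTate.Defs

set_option autoImplicit false

universe u v w

namespace GenTate

open Polynomial TopologicalSpace

section LinAlg

variable {K : Type v} [Field K] {V : Type w} [AddCommGroup V] [Module K V]

/-- if `ker G² = ker G` then `G = G² q(G)` for a polynomial `q` -/
lemma exists_poly [FiniteDimensional K V] (G : Module.End K V)
    (h : ∀ a, G (G a) = 0 → G a = 0) : ∃ q : K[X], G = G * G * aeval G q := by
  have hint : IsIntegral K G := IsIntegral.of_finite K G
  have hm : minpoly K G ≠ 0 := minpoly.ne_zero hint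
  obtain ⟨q, hq, hdvd⟩ := Polynomial.exists_eq_pow_rootMultiplicity_mul_and_not_dvd
    (minpoly K G) hm 0
  rw [Polynomial.C_0, sub_zero] at hq hdvd
  set k := Polynomial.rootMultiplicity 0 (minpoly K G)
  have hcop : IsCoprime (Polynomial.X : K[X]) q :=
    (Polynomial.irreducible_X.coprime_iff_not_dvd).mpr hdvd
  obtain ⟨c, d, hcd⟩ := hcop
  have hpow : ∀ (n : ℕ) (a : V), (G ^ (n + 1)) a = 0 → G a = 0 := by
    intro n
    induction n with
    | zero => intro a ha; simpa using ha
    | succ n ih =>
      intro a ha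
      apply h
      rw [pow_succ] at ha
      exact ih (G a) ha
  have hkill : G * aeval G q = 0 := by
    ext a
    have h1 := minpoly.aeval K G
    rw [hq, map_mul, map_pow, aeval_X] at h1
    have h2 : (G ^ (k + 1)) (aeval G q a) = 0 := by
      rw [pow_succ']
      have h3 : (G ^ k * aeval G q) a = 0 := by rw [h1]; rfl
      change G ((G ^ k) (aeval G q a)) = 0
      have h4 : (G ^ k) (aeval G q a) = 0 := h3
      rw [h4, map_zero]
    exact hpow k _ h2
  refine ⟨c, ?_⟩
  have hone : aeval G c * G + aeval G d * aeval G q = 1 := by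
    have h1 := congrArg (aeval G) hcd
    rw [map_add, map_mul, map_mul, map_one, aeval_X] at h1
    exact h1
  have hcomm : Commute G (aeval G c) := by
    have h1 : Commute (aeval G (Polynomial.X : K[X])) (aeval G c) := by
      unfold Commute SemiconjBy
      rw [← map_mul, ← map_mul, mul_comm]
    rwa [aeval_X] at h1
  have hcommd : Commute G (aeval G d) := by
    have h1 : Commute (aeval G (Polynomial.X : K[X])) (aeval G d) := by
      unfold Commute SemiconjBy
      rw [← map_mul, ← map_mul, mul_comm]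
    rwa [aeval_X] at h1
  calc G = G * (aeval G c * G + aeval G d * aeval G q) := by rw [hone, mul_one]
    _ = G * (aeval G c * G) + aeval G d * (G * aeval G q) := by
        rw [mul_add, ← mul_assoc G (aeval G d), hcommd.eq, mul_assoc]
    _ = G * G * aeval G c := by
        rw [hkill, mul_zero, add_zero, ← hcomm.eq, mul_assoc]

variable {W : Type w} [AddCommGroup W] [Module K W]

lemma aeval_comm (f : V →ₗ[K] W) (G : Module.End K V) (G' : Module.End K W)
    (h : ∀ a, f (G a) = G' (f a)) (q : K[X]) (a : V) : f (aeval G q a) = aeval G' q (f a) := by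
  induction q using Polynomial.induction_on' generalizing a with
  | add p q hp hq => simp [map_add, LinearMap.add_apply, hp, hq]
  | monomial n c =>
    simp only [aeval_monomial, Module.End.mul_apply, Module.algebraMap_end_apply, map_smul]
    congr 1
    induction n generalizing a with
    | zero => simp
    | succ n ih =>
      rw [pow_succ, pow_succ, Module.End.mul_apply, Module.End.mul_apply, ih, h]

/-- semisimplicity passes to images -/
lemma ss_image [FiniteDimensional K V] (f : V →ₗ[K] W) (G : Module.End K V) (G' : Module.End K W)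
    (h : ∀ a, f (G a) = G' (f a)) (hs : ∀ a, G (G a) = 0 → G a = 0) (a : V)
    (ha : G' (G' (f a)) = 0) : G' (f a) = 0 := by
  obtain ⟨q, hq⟩ := exists_poly G hs
  have h1 : G a = aeval G q (G (G a)) := by
    have hcomm : Commute (G * G) (aeval G q) := by
      have h1 : Commute (aeval G ((Polynomial.X : K[X]) * X)) (aeval G q) := by
        unfold Commute SemiconjBy
        rw [← map_mul, ← map_mul, mul_comm]
      rwa [map_mul, aeval_X] at h1
    calc G a = (G * G * aeval G q) a := by rw [← hq]
      _ = (aeval G q * (G * G)) a := by rw [hcomm.eq]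
      _ = _ := rfl
  rw [← h, h1, aeval_comm f G G' h, h, h, ha, map_zero]

/-- invariants lift -/
lemma lift_inv [FiniteDimensional K V] (f : V →ₗ[K] W) (G : Module.End K V) (G' : Module.End K W)
    (h : ∀ a, f (G a) = G' (f a)) (hs : ∀ a, G (G a) = 0 → G a = 0) (a : V)
    (ha : G' (f a) = 0) : ∃ b, G b = 0 ∧ f b = f a := by
  obtain ⟨q, hq⟩ := exists_poly G hs
  refine ⟨a - aeval G q (G a), ?_, ?_⟩
  · have hcomm : Commute G (aeval G q) := by
      have h1 : Commute (aeval G (Polynomial.X : K[X])) (aeval G q) := by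
        unfold Commute SemiconjBy
        rw [← map_mul, ← map_mul, mul_comm]
      rwa [aeval_X] at h1
    have h1 : G (aeval G q (G a)) = (G * G * aeval G q) a := by
      have h2 : G * (aeval G q * G) = G * G * aeval G q := by
        rw [← hcomm.eq, mul_assoc]
      rw [← h2]
      rfl
    rw [map_sub, h1, ← hq, sub_self]
  · rw [map_sub, aeval_comm f G G' h, h, ha, map_zero, sub_zero]

end LinAlg

section Dim

variable {X : Type u} [TopologicalSpace X]

lemma irr_sub (Z E : Set X) (hE : IsIrreducible E) (hEZ : E ⊆ Z) :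
    IsIrreducible ((fun z : Z => (z : X)) ⁻¹' E) := by
  refine ⟨?_, ?_⟩
  · obtain ⟨x, hx⟩ := hE.1
    exact ⟨⟨x, hEZ hx⟩, hx⟩
  · rintro u v hu hv ⟨x, hxE, hxu⟩ ⟨y, hyE, hyv⟩
    obtain ⟨U, hU, rfl⟩ := isOpen_induced_iff.mp hu
    obtain ⟨V, hV, rfl⟩ := isOpen_induced_iff.mp hv
    obtain ⟨z, hzE, hzU, hzV⟩ := hE.2 U V hU hV ⟨x, hxE, hxu⟩ ⟨y, hyE, hyv⟩
    exact ⟨⟨z, hEZ hzE⟩, hzE, hzU, hzV⟩

/-- a subset of a finite union of closures of points with closures of dimension `≤ n` has
dimension `≤ n` -/
lemma dim_le_of_subset_closure {S : Set X} (hS : S.Finite) (n : ℕ)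
    (h : ∀ x ∈ S, topologicalKrullDim (closure ({x} : Set X) : Set X) ≤ (n : WithBot ℕ∞))
    (Y : Set X) (hY : Y ⊆ closure S) : topologicalKrullDim Y ≤ (n : WithBot ℕ∞) := by
  unfold topologicalKrullDim Order.krullDim
  refine iSup_le fun p => ?_
  have hmono := IrreducibleCloseds.map_strictMono_of_isInducing
    (Topology.IsInducing.subtypeVal (t := Y))
  set E : IrreducibleCloseds Y → IrreducibleCloseds X :=
    IrreducibleCloseds.map Subtype.val (Topology.IsInducing.subtypeVal (t := Y)).continuous with hE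
  have hE1 : ∀ C : IrreducibleCloseds Y, (E C : Set X) ⊆ closure S := by
    intro C
    rw [hE, IrreducibleCloseds.coe_map]
    apply closure_minimal _ isClosed_closure
    rintro _ ⟨y, -, rfl⟩
    exact hY y.2
  have hcl : closure S = ⋃₀ ((hS.toFinset.image (fun x => closure ({x} : Set X)) : Finset (Set X)) :
      Set (Set X)) := by
    have h1 : closure S = ⋃ x ∈ S, closure ({x} : Set X) := by
      rw [← hS.closure_biUnion, Set.biUnion_of_singleton]
    rw [h1]
    ext z
    simp
  obtain ⟨W, hW, hEW⟩ := isIrreducible_iff_sUnion_isClosed.mp (E p.last).isIrreducible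
    (hS.toFinset.image (fun x => closure ({x} : Set X))) (by
      intro z hz
      simp only [Finset.mem_image] at hz
      obtain ⟨x, -, rfl⟩ := hz
      exact isClosed_closure) (by
      rw [← hcl]
      exact hE1 _)
  simp only [Finset.mem_image, Set.Finite.mem_toFinset] at hW
  obtain ⟨x, hx, rfl⟩ := hW
  have hsub : ∀ k, (E (p k) : Set X) ⊆ closure {x} := by
    intro k
    refine Set.Subset.trans ?_ hEW
    have h1 : p k ≤ p.last := LTSeries.monotone p (Fin.le_last k)
    exact hmono.monotone h1
  let q : LTSeries (IrreducibleCloseds (closure ({x} : Set X) : Set X)) :=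
    { length := p.length
      toFun := fun k => ⟨(fun z : (closure ({x} : Set X) : Set X) => (z : X)) ⁻¹' (E (p k) : Set X),
        irr_sub _ _ (E (p k)).isIrreducible (hsub k),
        (E (p k)).isClosed.preimage continuous_subtype_val⟩
      step := by
        intro k
        have h1 : E (p k.castSucc) < E (p k.succ) := hmono (p.step k)
        rw [← SetLike.coe_ssubset_coe] at h1
        obtain ⟨h2, h3⟩ := h1
        change (_ : IrreducibleCloseds (closure ({x} : Set X) : Set X)) < _
        rw [← SetLike.coe_ssubset_coe]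
        refine ⟨fun z hz => h2 hz, fun h4 => h3 ?_⟩
        intro z hz
        exact h4 (a := ⟨z, hsub _ hz⟩) hz }
  have h1 : (p.length : WithBot ℕ∞) ≤
      Order.krullDim (IrreducibleCloseds (closure ({x} : Set X) : Set X)) :=
    Order.LTSeries.length_le_krullDim q
  exact h1.trans (h x hx)

/-- Noetherian induction for locally closed subsets -/
lemma noeth_induction [NoetherianSpace X] (Q : Set X → Prop)
    (h : ∀ Y, IsLocallyClosed Y →
      (∀ V, IsOpen V → (Y ∩ V).Nonempty → Q (Y \ V)) → Q Y) (Y : Set X)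
    (hY : IsLocallyClosed Y) : Q Y := by
  have hwf : WellFounded ((· < ·) : Closeds X → Closeds X → Prop) :=
    (inferInstance : WellFoundedLT (Closeds X)).wf
  have key : ∀ C : Closeds X, ∀ Y : Set X, IsLocallyClosed Y → closure Y = C → Q Y := by
    intro C
    induction C using hwf.induction with
    | _ C ih =>
      intro Y hY hC
      apply h Y hY
      intro V hV hne
      obtain ⟨O, Z, hO, hZ, rfl⟩ := hY
      refine ih ⟨closure ((O ∩ Z) \ V), isClosed_closure⟩ ?_ _ ?_ rfl
      · rw [← SetLike.coe_ssubset_coe]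
        refine ⟨?_, ?_⟩
        · rw [← hC]
          exact closure_mono Set.sdiff_subset
        · intro hsub
          obtain ⟨x, hx, hxV⟩ := hne
          have h1 : x ∈ (C : Set X) := by
            rw [← hC]
            exact subset_closure hx
          have h2 : x ∈ closure ((O ∩ Z) \ V) := hsub h1
          have h3 := mem_closure_iff.mp h2 (O ∩ V) (hO.inter hV) ⟨hx.1, hxV⟩
          obtain ⟨z, ⟨-, hzV⟩, -, hz⟩ := h3
          exact hz hzV
      · refine ⟨O, Z \ V, hO, hZ.sdiff hV, ?_⟩
        ext z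
        simp only [Set.mem_sdiff, Set.mem_inter_iff]
        tauto
  exact key ⟨closure Y, isClosed_closure⟩ Y hY rfl

end Dim

section Main

variable {X : Type u} [TopologicalSpace X] {K : Type v} [Field K] {T : Data.{u, v, w} X K}
  {i : ℕ} {P : Set X → Prop}

lemma lc_inter {Y V : Set X} (hY : IsLocallyClosed Y) (hV : IsOpen V) :
    IsLocallyClosed (Y ∩ V) := hY.inter hV.isLocallyClosed

lemma lc_diff {Y V : Set X} (hY : IsLocallyClosed Y) (hV : IsOpen V) :
    IsLocallyClosed (Y \ V) := by
  rw [Set.sdiff_eq]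
  exact hY.inter hV.isClosed_compl.isLocallyClosed

namespace Data.IsTheory

variable (hT : T.IsTheory i P)

include hT

lemma span_fixed {Y : Set X} (hY : IsLocallyClosed Y) {a : T.H Y}
    (ha : a ∈ Submodule.span K (T.cl Y '' pts i Y)) : T.F Y a = a := by
  induction ha using Submodule.span_induction with
  | mem a ha =>
    obtain ⟨x, hx, rfl⟩ := ha
    exact hT.cl_F Y hY x hx
  | zero => exact map_zero _
  | add a b _ _ ha hb => rw [map_add, ha, hb]
  | smul r a _ ha => rw [map_smul, ha]

lemma span_lift {Y V : Set X} (hY : IsLocallyClosed Y) (hV : IsOpen V) {a : T.H (Y ∩ V)}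
    (ha : a ∈ Submodule.span K (T.cl (Y ∩ V) '' pts i (Y ∩ V))) :
    ∃ b ∈ Submodule.span K (T.cl Y '' pts i Y), T.res Y V b = a := by
  induction ha using Submodule.span_induction with
  | mem a ha =>
    obtain ⟨x, hx, rfl⟩ := ha
    exact ⟨T.cl Y x, Submodule.subset_span ⟨x, ⟨hx.1.1, hx.2⟩, rfl⟩, hT.cl_res Y V hY hV x hx⟩
  | zero => exact ⟨0, Submodule.zero_mem _, map_zero _⟩
  | add a b _ _ ha hb =>
    obtain ⟨a', ha1, ha2⟩ := ha
    obtain ⟨b', hb1, hb2⟩ := hb
    exact ⟨a' + b', Submodule.add_mem _ ha1 hb1, by rw [map_add, ha2, hb2]⟩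
  | smul r a _ ha =>
    obtain ⟨a', ha1, ha2⟩ := ha
    exact ⟨r • a', Submodule.smul_mem _ _ ha1, by rw [map_smul, ha2]⟩

lemma span_push {Y V : Set X} (hY : IsLocallyClosed Y) (hV : IsOpen V) {a : T.H (Y \ V)}
    (ha : a ∈ Submodule.span K (T.cl (Y \ V) '' pts i (Y \ V))) :
    T.push Y V a ∈ Submodule.span K (T.cl Y '' pts i Y) := by
  induction ha using Submodule.span_induction with
  | mem a ha =>
    obtain ⟨x, hx, rfl⟩ := ha
    rw [hT.cl_push Y V hY hV x hx]
    exact Submodule.subset_span ⟨x, ⟨hx.1.1, hx.2⟩, rfl⟩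
  | zero => rw [map_zero]; exact Submodule.zero_mem _
  | add a b _ _ ha hb => rw [map_add]; exact Submodule.add_mem _ ha hb
  | smul r a _ ha => rw [map_smul]; exact Submodule.smul_mem _ _ ha

lemma low_ss [CharZero K] {Y : Set X} (hY : IsLocallyClosed Y)
    (hd : topologicalKrullDim Y ≤ (i : WithBot ℕ∞)) : T.Semisimple Y := by
  intro a ha
  obtain ⟨m, hm, hma⟩ := (hT.low Y hY hd).1 a
  set x := T.F Y a - a with hx
  have hFx : T.F Y x = x := sub_eq_zero.mp ha
  have h1 : ∀ n : ℕ, (T.F Y ^ n) a = a + (n : K) • x := by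
    intro n
    induction n with
    | zero => simp
    | succ n ih =>
      rw [pow_succ', Module.End.mul_apply, ih, map_add, map_smul, hFx]
      have h2 : T.F Y a = a + x := by rw [hx]; abel
      rw [h2]
      push_cast
      rw [add_smul, one_smul]
      abel
  rw [h1 m] at hma
  have h2 : (m : K) • x = 0 := by simpa using hma
  rcases smul_eq_zero.mp h2 with h3 | h3
  · exfalso
    rw [Nat.cast_eq_zero] at h3
    omega
  · exact h3

lemma surj_P (hS : ∀ U : Set X, IsLocallyClosed U → P U →
      (i : WithBot ℕ∞) < topologicalKrullDim U →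
      topologicalKrullDim U ≤ ((2 * i : ℕ) : WithBot ℕ∞) → T.Surj i U)
    {U : Set X} (hU : IsLocallyClosed U) (hP : P U) : T.Surj i U := by
  rcases le_or_gt (topologicalKrullDim U) (i : WithBot ℕ∞) with h1 | h1
  · exact (hT.low U hU h1).2
  · rcases le_or_gt (topologicalKrullDim U) ((2 * i : ℕ) : WithBot ℕ∞) with h2 | h2
    · exact hS U hU hP h1 h2
    · intro a ha
      rw [hT.artin U hU hP h2 a ha]
      exact Submodule.zero_mem _

/-- Main theorem: surjectivity for the members of `P` of dimension in `(i, 2i]` implies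
surjectivity and semisimplicity for all locally closed subsets. -/
theorem main [NoetherianSpace X] [CharZero K] (hS : ∀ U : Set X, IsLocallyClosed U → P U →
      (i : WithBot ℕ∞) < topologicalKrullDim U →
      topologicalKrullDim U ≤ ((2 * i : ℕ) : WithBot ℕ∞) → T.Surj i U) (Y : Set X)
    (hY : IsLocallyClosed Y) : T.Surj i Y ∧ T.Semisimple Y := by
  refine noeth_induction (fun Y => T.Surj i Y ∧ T.Semisimple Y) ?_ Y hY
  clear hY Y
  intro Y hY ih
  rcases le_or_gt (topologicalKrullDim Y) (i : WithBot ℕ∞) with hd | hd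
  · exact ⟨(hT.low Y hY hd).2, hT.low_ss hY hd⟩
  have hlin : ∀ V, IsOpen V → ∀ a, T.push Y V ((T.F (Y \ V) - 1) a) =
      (T.F Y - 1 : Module.End K (T.H Y)) (T.push Y V a) := by
    intro V hV a
    rw [LinearMap.sub_apply, LinearMap.sub_apply, map_sub, ← hT.push_F Y V hY hV]
    rfl
  have hss : ∀ V, T.Semisimple (Y \ V) → ∀ a : T.H (Y \ V),
      (T.F (Y \ V) - 1 : Module.End K (T.H (Y \ V)))
        ((T.F (Y \ V) - 1 : Module.End K (T.H (Y \ V))) a) = 0 →
      (T.F (Y \ V) - 1 : Module.End K (T.H (Y \ V))) a = 0 := fun V h a => h a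
  have hsurj : T.Surj i Y := by
    have hne : Y.Nonempty := by
      by_contra h
      rw [Set.not_nonempty_iff_eq_empty] at h
      subst h
      have h1 : topologicalKrullDim (∅ : Set X) = ⊥ := by
        unfold topologicalKrullDim
        rw [Order.krullDim_eq_bot_iff]
        constructor
        intro C
        obtain ⟨x, -⟩ := C.isIrreducible.nonempty
        exact x.2
      rw [h1] at hd
      exact not_lt_bot hd
    obtain ⟨V, hV, hVne, hVP⟩ := hT.base Y hY hne
    obtain ⟨ih1, ih2⟩ := ih V hV hVne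
    have hfin := hT.finite (Y \ V) (lc_diff hY hV)
    intro a ha
    have h1 : T.F (Y ∩ V) (T.res Y V a) = T.res Y V a := by
      rw [hT.res_F Y V hY hV, ha]
    obtain ⟨b, hb1, hb2⟩ := hT.span_lift hY hV (hT.surj_P hS (lc_inter hY hV) hVP _ h1)
    obtain ⟨c, hc⟩ := (hT.exact Y V hY hV (a - b)).mp (by rw [map_sub, hb2, sub_self])
    have h2 : (T.F Y - 1 : Module.End K (T.H Y)) (T.push Y V c) = 0 := by
      rw [hc, LinearMap.sub_apply, map_sub, ha, hT.span_fixed hY hb1]
      exact sub_self _
    obtain ⟨d, hd1, hd2⟩ := lift_inv (T.push Y V) (T.F (Y \ V) - 1) (T.F Y - 1) (hlin V hV)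
      (hss V ih2) c h2
    have h3 : T.F (Y \ V) d = d := sub_eq_zero.mp hd1
    have h4 := hT.span_push hY hV (ih1 d h3)
    rw [hd2, hc] at h4
    have h5 : a = (a - b) + b := by abel
    rw [h5]
    exact Submodule.add_mem _ h4 hb1
  refine ⟨hsurj, ?_⟩
  intro a ha
  set x := T.F Y a - a with hx
  have hFx : T.F Y x = x := sub_eq_zero.mp ha
  have hxs := hsurj x hFx
  rw [Finsupp.mem_span_image_iff_linearCombination] at hxs
  obtain ⟨l, hl, hlx⟩ := hxs
  have hlS : ∀ s ∈ l.support, s ∈ pts i Y := fun s hs => hl (Finset.mem_coe.mpr hs)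
  set W : Set X := (closure (l.support : Set X))ᶜ with hW
  have hWo : IsOpen W := isClosed_closure.isOpen_compl
  have hne : (Y ∩ W).Nonempty := by
    by_contra h
    have h1 : Y ⊆ closure (l.support : Set X) := by
      intro y hy
      by_contra h2
      exact h ⟨y, hy, h2⟩
    have h2 := dim_le_of_subset_closure (S := (l.support : Set X)) l.support.finite_toSet i
      (fun s hs => (hlS s hs).2.le) Y h1
    exact absurd hd (not_lt_of_ge h2)
  obtain ⟨V', hV'o, hV'ne, hV'P⟩ := hT.base (Y ∩ W) (lc_inter hY hWo) hne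
  rw [Set.inter_assoc] at hV'ne hV'P
  set V : Set X := W ∩ V' with hV
  have hVo : IsOpen V := hWo.inter hV'o
  obtain ⟨ih1, ih2⟩ := ih V hVo hV'ne
  have hfin := hT.finite (Y \ V) (lc_diff hY hVo)
  have hresx : T.res Y V x = 0 := by
    rw [← hlx, Finsupp.linearCombination_apply, Finsupp.sum, map_sum]
    apply Finset.sum_eq_zero
    intro s hs
    rw [map_smul]
    have h1 : s ∈ pts i (Y \ V) := by
      refine ⟨⟨(hlS s hs).1, fun h2 => ?_⟩, (hlS s hs).2⟩
      exact h2.1 (subset_closure (Finset.mem_coe.mpr hs))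
    have h2 : T.res Y V (T.cl Y s) = 0 :=
      (hT.exact Y V hY hVo _).mpr ⟨_, hT.cl_push Y V hY hVo s h1⟩
    rw [h2, smul_zero]
  have h1 : T.F (Y ∩ V) (T.res Y V a) = T.res Y V a := by
    rw [hT.res_F Y V hY hVo]
    have h2 : T.F Y a = x + a := by rw [hx]; abel
    rw [h2, map_add, hresx, zero_add]
  obtain ⟨b, hb1, hb2⟩ := hT.span_lift hY hVo (hT.surj_P hS (lc_inter hY hVo) hV'P _ h1)
  obtain ⟨c, hc⟩ := (hT.exact Y V hY hVo (a - b)).mp (by rw [map_sub, hb2, sub_self])
  have hFb : T.F Y b = b := hT.span_fixed hY hb1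
  have h2 : (T.F Y - 1 : Module.End K (T.H Y)) (T.push Y V c) = x := by
    rw [hc, LinearMap.sub_apply, map_sub, hFb, hx]
    change T.F Y a - b - (a - b) = _
    abel
  have h3 := ss_image (T.push Y V) (T.F (Y \ V) - 1) (T.F Y - 1) (hlin V hVo) (hss V ih2) c
    (by rw [h2]; exact ha)
  rw [h2] at h3
  exact h3

end Data.IsTheory

end Main

end GenTate
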