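import Pool.Agent.Lib_helper66.GenTate.Main

/-!
# A model of the structure (the structure is not empty)

`X` is a finite `T₀` space and `H Y` the space of all cycles of dimension `i` of `Y`.
-/

set_option autoImplicit false

universe u v

namespace GenTate

open Classical TopologicalSpace

noncomputable section

variable (X : Type u) [TopologicalSpace X] (K : Type v) [Field K] (i : ℕ)

/-- the theory of cycles of dimension `i` without rational equivalence, trivial Frobenius -/
def cyc : Data.{u, v, max u v} X K where
  H := fun Y => pts i Y → K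
  F := fun _ => LinearMap.id
  push := fun Y V =>
    { toFun := fun f x => if h : (x : X) ∈ V then 0 else f ⟨x, ⟨x.2.1, h⟩, x.2.2⟩
      map_add' := by
        intro f g
        ext x
        by_cases h : (x : X) ∈ V <;> simp [h]
      map_smul' := by
        intro r f
        ext x
        by_cases h : (x : X) ∈ V <;> simp [h] }
  res := fun Y V =>
    { toFun := fun f x => f ⟨x, x.2.1.1, x.2.2⟩
      map_add' := by intro f g; rfl
      map_smul' := by intro r f; rfl }
  cl := fun _ x y => if (y : X) = x then 1 else 0

/-- the theory of cycles satisfies the axioms -/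
theorem cyc_isTheory [Finite X] [T0Space X] :
    (cyc X K i).IsTheory i (fun U => topologicalKrullDim U ≤ ((2 * i : ℕ) : WithBot ℕ∞)) where
  finite := by
    intro Y _
    exact inferInstanceAs (FiniteDimensional K (pts i Y → K))
  push_F := by intro Y V _ _ a; rfl
  res_F := by intro Y V _ _ a; rfl
  exact := by
    intro Y V _ _ a
    constructor
    · intro h
      refine ⟨fun x => a ⟨x, x.2.1.1, x.2.2⟩, ?_⟩
      funext x
      change (if h : (x : X) ∈ V then (0 : K) else _) = _
      by_cases hx : (x : X) ∈ V
      · rw [dif_pos hx]
        have h1 := congrFun h ⟨x, ⟨x.2.1, hx⟩, x.2.2⟩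
        exact h1.symm
      · rw [dif_neg hx]
    · rintro ⟨b, rfl⟩
      funext x
      change (if h : (x : X) ∈ V then (0 : K) else _) = _
      rw [dif_pos x.2.1.2]
      rfl
  cl_F := by intro Y _ x _; rfl
  cl_res := by
    intro Y V _ _ x _
    rfl
  cl_push := by
    intro Y V _ _ x hx
    funext y
    change (if h : (y : X) ∈ V then (0 : K) else (if (y : X) = x then 1 else 0)) =
      (if (y : X) = x then 1 else 0)
    by_cases hy : (y : X) ∈ V
    · rw [dif_pos hy, if_neg]
      rintro rfl
      exact hx.1.2 hy
    · rw [dif_neg hy]
  low := by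
    intro Y _ _
    refine ⟨fun a => ⟨1, one_pos, rfl⟩, ?_⟩
    intro a _
    have : Fintype (pts i Y) := Fintype.ofFinite _
    let a' : pts i Y → K := a
    have h1 : a' = ∑ x : pts i Y, a' x • (fun y : pts i Y => if (y : X) = x then (1 : K) else 0) := by
      funext y
      rw [Finset.sum_apply, Finset.sum_eq_single y]
      · rw [Pi.smul_apply, if_pos rfl, smul_eq_mul, mul_one]
      · intro x _ hx
        rw [Pi.smul_apply, if_neg, smul_zero]
        intro h
        exact hx (Subtype.ext h.symm)
      · intro h
        exact absurd (Finset.mem_univ y) h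
    have h2 : a = ∑ x : pts i Y, a' x • (cyc X K i).cl Y x := h1
    rw [h2]
    exact Submodule.sum_mem _ fun x _ =>
      Submodule.smul_mem _ _ (Submodule.subset_span ⟨x, x.2, rfl⟩)
  base := by
    intro Y _ hne
    have hne' : (Set.univ : Set Y).Nonempty := ⟨⟨hne.some, hne.some_mem⟩, trivial⟩
    obtain ⟨x, -, hx⟩ := exists_isOpen_singleton_of_isOpen_finite (X := Y) Set.finite_univ hne'
      isOpen_univ
    obtain ⟨V, hV, hVx⟩ := isOpen_induced_iff.mp hx
    have h1 : Y ∩ V = {(x : X)} := by
      ext y
      constructor
      · rintro ⟨hy, hyV⟩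
        have h2 : (⟨y, hy⟩ : Y) ∈ ({x} : Set Y) := by
          rw [← hVx]
          exact hyV
        rw [Set.mem_singleton_iff] at h2
        rw [Set.mem_singleton_iff, ← h2]
      · rintro rfl
        refine ⟨x.2, ?_⟩
        have h2 : x ∈ (Subtype.val ⁻¹' V : Set Y) := by
          rw [hVx]
          rfl
        exact h2
    refine ⟨V, hV, ?_, ?_⟩
    · rw [h1]
      exact Set.singleton_nonempty _
    · have h2 : topologicalKrullDim (Y ∩ V : Set X) ≤ 0 := by
        have : Subsingleton (Y ∩ V : Set X) := by
          rw [h1]
          infer_instance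
        exact topologicalKrullDim_zero_of_discreteTopology _
      refine h2.trans ?_
      exact_mod_cast Nat.zero_le _
  artin := by
    intro Y _ hP h
    exact absurd hP (not_le_of_gt h)

end

end GenTate
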